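import Pool.Agent.X20.Tr.LogR

/-!
# Short exponential sums of the Liouville function at the points `⌊α n ^ c⌋`

From Mathlib: `ArithmeticFunction.cardFactors`: the number of prime factors with multiplicity; `⨆`: the supremum;
`dimH E`: the Hausdorff dimension of `E`; `⌊x⌋₊`: the integer part; `𝓝`: neighbourhoods; `∀ᶠ N in atTop`: for all large
`N`.
-/

set_option autoImplicit false

namespace Pool.Agent.Results.MP_f12790_nt.AlongDilatedPowers

open Finset Filter Topology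
open Pool.Agent.X20.Tr

/-- the Liouville function -/
noncomputable def lam (n : ℕ) : ℂ := (-1) ^ ArithmeticFunction.cardFactors n

/-- `S_H(n)`: the supremum over `β` of `|∑_{h ≤ H} λ(n + h) e(h β)|` -/
noncomputable def S (H n : ℕ) : ℝ :=
  ⨆ β : ℝ, ‖∑ h ∈ Icc 1 H, lam (n + h) * Complex.exp (2 * Real.pi * Complex.I * (h * β))‖

lemma term_le (H n : ℕ) (β : ℝ) :
    ‖∑ h ∈ Icc 1 H, lam (n + h) * Complex.exp (2 * Real.pi * Complex.I * (h * β))‖ ≤ H := by
  calc ‖∑ h ∈ Icc 1 H, lam (n + h) * Complex.exp (2 * Real.pi * Complex.I * (h * β))‖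
      ≤ ∑ h ∈ Icc 1 H, ‖lam (n + h) * Complex.exp (2 * Real.pi * Complex.I * (h * β))‖ := norm_sum_le _ _
    _ = ∑ h ∈ Icc 1 H, (1 : ℝ) := by
        apply sum_congr rfl
        intro h _
        have e : (2 * Real.pi * Complex.I * (h * β) : ℂ) = ((2 * Real.pi * (h * β) : ℝ) : ℂ) * Complex.I := by
          push_cast
          ring
        rw [norm_mul, e, Complex.norm_exp_ofReal_mul_I, mul_one]
        unfold lam
        rw [norm_pow, norm_neg, norm_one, one_pow]
    _ = H := by simp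

lemma S_nonneg (H n : ℕ) : 0 ≤ S H n := Real.iSup_nonneg fun _ => norm_nonneg _

lemma S_le (H n : ℕ) : S H n ≤ H := ciSup_le fun β => term_le H n β

/-- For every real `c > 1` there are `0 < κ < 1` and a set `E` of real numbers of Hausdorff dimension at most `1 - κ`
such that for every real `α > 0` outside `E`, with `m_n = ⌊α n ^ c⌋`:

* for every `H` the difference of `(1 / log N) ∑_{n ≤ N} S_H(m_n) / n` and `(1 / log m_N) ∑_{m ≤ m_N} S_H(m) / m` tends
  to zero as `N → ∞`;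
* the bound `∑_{n ≤ X} S_H(n) / n ≤ ε H log X` holds for all `ε > 0`, `H ≥ H₀(ε)` and `X ≥ X₀(ε, H)` if and only if the
  bound `∑_{n ≤ N} S_H(m_n) / n ≤ ε H log N` holds for all `ε > 0`, `H ≥ H₀(ε)` and `N ≥ N₀(ε, H)`. -/
theorem result (c : ℝ) (hc : 1 < c) : ∃ κ : ℝ, 0 < κ ∧ κ < 1 ∧ ∃ E : Set ℝ, dimH E ≤ ENNReal.ofReal (1 - κ) ∧
    ∀ α : ℝ, 0 < α → α ∉ E →
      (∀ H : ℕ, Tendsto (fun N : ℕ => (∑ n ∈ Icc 1 N, S H ⌊α * (n : ℝ) ^ c⌋₊ / n) / Real.log N -
        (∑ m ∈ Icc 1 ⌊α * (N : ℝ) ^ c⌋₊, S H m / m) / Real.log (⌊α * (N : ℝ) ^ c⌋₊ : ℕ)) atTop (𝓝 0)) ∧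
      ((∀ ε : ℝ, 0 < ε → ∃ H₀ : ℕ, ∀ H : ℕ, H₀ ≤ H → ∀ᶠ X : ℕ in atTop,
          ∑ n ∈ Icc 1 X, S H n / n ≤ ε * H * Real.log X) ↔
        ∀ ε : ℝ, 0 < ε → ∃ H₀ : ℕ, ∀ H : ℕ, H₀ ≤ H → ∀ᶠ N : ℕ in atTop,
          ∑ n ∈ Icc 1 N, S H ⌊α * (n : ℝ) ^ c⌋₊ / n ≤ ε * H * Real.log N) := by
  obtain ⟨κ, hκ0, hκ1, K⟩ := rlogSparse c hc
  obtain ⟨E, hE, h⟩ := K ℕ (fun H n => S H n / H) (fun H n => by
    show |S H n / H| ≤ 1
    rw [abs_of_nonneg (div_nonneg (S_nonneg _ _) (Nat.cast_nonneg _))]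
    exact div_le_one_of_le₀ (S_le H n) (Nat.cast_nonneg _))
  refine ⟨κ, hκ0, hκ1, E, hE, fun α hα hαE => ⟨fun H => ?_, ?_⟩⟩
  · have h1 := (h α hα hαE H).2.1
    rcases Nat.eq_zero_or_pos H with rfl | hH
    · have h0 : ∀ n, S 0 n = 0 := fun n => le_antisymm (by simpa using S_le 0 n) (S_nonneg _ _)
      simp only [h0, zero_div, sum_const_zero, sub_zero]
      exact tendsto_const_nhds
    · have hH0 : (H : ℝ) ≠ 0 := by exact_mod_cast hH.ne'
      have h2 := h1.const_mul (H : ℝ)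
      rw [mul_zero] at h2
      refine h2.congr fun N => ?_
      have e : ∀ F : ℕ → ℝ, ∀ M : ℕ, (H : ℝ) * rlav (fun n => F n / H) M = (∑ n ∈ Icc 1 M, F n / n) / Real.log M := by
        intro F M
        unfold rlav
        rw [mul_div_assoc', mul_sum]
        congr 1
        apply sum_congr rfl
        intro n _
        field_simp
      rw [mul_sub, e (fun n => S H n), e (fun n => S H (Pool.Agent.Y854.PS.ms α c n))]
      rfl
  · -- the two forms of the bound
    have hlog := tend_log.eventually_ge_atTop (1 : ℝ)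
    have bd : ∀ (F : ℕ → ℝ) (H : ℕ) (ε : ℝ), 1 ≤ H → ∀ M : ℕ, 1 ≤ Real.log (M : ℝ) →
        (rlav (fun n => F n / H) M ≤ ε ↔ ∑ n ∈ Icc 1 M, F n / n ≤ ε * H * Real.log M) := by
      intro F H ε hH M hM
      have hH0 : (0 : ℝ) < H := by exact_mod_cast hH
      have hM0 : (0 : ℝ) < Real.log M := by linarith
      unfold rlav
      rw [div_le_iff₀ hM0]
      have e : ∑ n ∈ Icc 1 M, F n / H / n = (∑ n ∈ Icc 1 M, F n / n) / H := by
        rw [sum_div]
        exact sum_congr rfl fun n _ => by ring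
      rw [e, div_le_iff₀ hH0]
      constructor <;> intro h5 <;> nlinarith
    constructor
    · intro hX ε hε
      obtain ⟨H₀, h2⟩ := hX (ε / 2) (by positivity)
      refine ⟨max H₀ 1, fun H hH => ?_⟩
      have hH1 : 1 ≤ H := (le_max_right _ _).trans hH
      have h3 := (tend_ms hc hα).eventually ((h2 H ((le_max_left _ _).trans hH)).and hlog)
      have h4 := (h α hα hαE H).2.1.eventually (eventually_le_nhds (show (0 : ℝ) < ε / 2 by positivity))
      filter_upwards [h3, h4, hlog] with N ⟨k1, k2⟩ k3 k4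
      have k5 := (bd (fun n => S H n) H (ε / 2) hH1 _ k2).2 k1
      exact (bd (fun n => S H (Pool.Agent.Y854.PS.ms α c n)) H ε hH1 N k4).1 (by linarith)
    · intro hX ε hε
      obtain ⟨H₀, h2⟩ := hX (ε / 2) (by positivity)
      refine ⟨max H₀ 1, fun H hH => ?_⟩
      have hH1 : 1 ≤ H := (le_max_right _ _).trans hH
      have h3 := (tend_nu hc hα).eventually ((h2 H ((le_max_left _ _).trans hH)).and hlog)
      have h4 := (h α hα hαE H).2.2.eventually (eventually_ge_nhds (show -(ε / 2) < (0 : ℝ) by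
        have : 0 < ε / 2 := by positivity
        linarith))
      filter_upwards [h3, h4, hlog] with M ⟨k1, k2⟩ k3 k4
      have k5 := (bd (fun n => S H (Pool.Agent.Y854.PS.ms α c n)) H (ε / 2) hH1 _ k2).2 k1
      exact (bd (fun n => S H n) H ε hH1 M k4).1 (by linarith)

end Pool.Agent.Results.MP_f12790_nt.AlongDilatedPowers
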